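import Pool.Agent.H348R6.GV2

/-!
# Independent families and filters all of whose extensions fail the Galvin property

If `κ` is regular uncountable and `2 ^ c ≤ κ` for all `c < κ`, there is a `κ`-independent family of
`2 ^ κ` subsets of `κ`; spreading it over disjoint stationary sets we get a `κ`-complete filter
containing the clubs in which the complement of the intersection of any `κ` members of some fixed
family of `2 ^ κ` members lies again in the filter.
-/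

set_option autoImplicit false

namespace Pool.Agent.Y585.IG

open Cardinal Set Pool.Agent.H348R6.GV

universe u

/-- Index set of the `κ`-independent family. -/
abbrev Idx (L : Type u) [LinearOrder L] : Type u :=
  Σ p : L × L, (Iio p.1 → Set (Iio p.2))

/-- The member of the independent family given by `X`. -/
def ind {L : Type u} [LinearOrder L] (X : Set L) : Set (Idx L) :=
  {q | ∃ i : Iio q.1.1, q.2 i = {b : Iio q.1.2 | (b : L) ∈ X}}

variable {κ : Cardinal.{u}}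

theorem mk_idx_le (hκ : κ.IsRegular) (h2 : ∀ c < κ, 2 ^ c ≤ κ) :
    #(Idx κ.ord.ToType) ≤ κ := by
  have hcard : ∀ p : κ.ord.ToType × κ.ord.ToType, #(Iio p.1 → Set (Iio p.2)) ≤ κ := by
    rintro ⟨a, b⟩
    have h1 : #(Iio a → Set (Iio b)) = 2 ^ (#(Iio b) * #(Iio a)) := by
      rw [← power_def, mk_set, ← power_mul]
    show #(Iio a → Set (Iio b)) ≤ κ
    rw [h1]
    exact h2 _ (mul_lt_of_lt hκ.aleph0_le (mk_Iio_toType_ord_lt b) (mk_Iio_toType_ord_lt a))
  rw [mk_sigma]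
  refine (sum_le_mk_mul_iSup _).trans ?_
  have hk : #(κ.ord.ToType × κ.ord.ToType) = κ := by
    simp only [mk_prod, lift_id, Cardinal.mk_toType, card_ord]
    exact mul_eq_self hκ.aleph0_le
  rw [hk]
  calc κ * iSup (fun p : κ.ord.ToType × κ.ord.ToType => #(Iio p.1 → Set (Iio p.2)))
      ≤ κ * κ := mul_le_mul_right (ciSup_le' hcard) _
    _ = κ := mul_eq_self hκ.aleph0_le

/-- `κ`-independence. -/
theorem ind_spec (hκ : κ.IsRegular) (J K : Set (Set κ.ord.ToType)) (hJ : #J < κ) (hK : #K < κ)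
    (hJK : Disjoint J K) :
    ∃ q : Idx κ.ord.ToType, (∀ X ∈ J, q ∈ ind X) ∧ ∀ X ∈ K, q ∉ ind X := by
  classical
  have hex : ∀ p : J × K, ∃ a : κ.ord.ToType, ¬ (a ∈ p.1.1 ↔ a ∈ p.2.1) := by
    rintro ⟨⟨X, hX⟩, ⟨Y, hY⟩⟩
    by_contra hcon
    push Not at hcon
    have : X = Y := Set.ext hcon
    subst this
    exact Set.disjoint_left.1 hJK hX hY
  choose a ha using hex
  obtain ⟨b, hb⟩ := bdd_of_lt hκ a (by
    rw [mk_prod, lift_id, lift_id]
    exact mul_lt_of_lt hκ.aleph0_le hJ hK)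
  -- enumerate J in a proper initial segment
  have hJ' : #J < #(κ.ord.ToType) := by rwa [Cardinal.mk_toType, card_ord]
  obtain ⟨e⟩ : Nonempty (J ↪ κ.ord.ToType) := hJ'.le
  obtain ⟨c, hc⟩ := bdd_of_lt hκ (fun j : J => e j) hJ
  let f : Iio c → Set (Iio b) := fun i =>
    if h : ∃ j : J, e j = i.1 then {x : Iio b | (x : κ.ord.ToType) ∈ (Classical.choose h).1}
    else
      -- a value that is not a trace of a member of K unless it is a trace of a member of J
      if h' : ∃ j : J, True then {x : Iio b | (x : κ.ord.ToType) ∈ (Classical.choose h').1}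
      else ∅
  by_cases hne : Nonempty J
  · refine ⟨⟨(c, b), f⟩, ?_, ?_⟩
    · intro X hX
      refine ⟨⟨e ⟨X, hX⟩, hc ⟨X, hX⟩⟩, ?_⟩
      have h : ∃ j : J, e j = e ⟨X, hX⟩ := ⟨_, rfl⟩
      have h1 : Classical.choose h = ⟨X, hX⟩ := e.injective (Classical.choose_spec h)
      show f ⟨e ⟨X, hX⟩, hc ⟨X, hX⟩⟩ = _
      simp only [f]
      rw [dif_pos h, h1]
    · intro Y hY hq
      obtain ⟨i, hi⟩ := hq
      have h1 : ∃ j : J, f i = {x : Iio b | (x : κ.ord.ToType) ∈ j.1} := by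
        by_cases h : ∃ j : J, e j = i.1
        · exact ⟨Classical.choose h, by simp only [f]; rw [dif_pos h]⟩
        · obtain ⟨j0⟩ := hne
          have h' : ∃ j : J, True := ⟨j0, trivial⟩
          exact ⟨Classical.choose h', by simp only [f]; rw [dif_neg h, dif_pos h']⟩
      obtain ⟨j, hj⟩ := h1
      have h2 : {x : Iio b | (x : κ.ord.ToType) ∈ j.1} = {x : Iio b | (x : κ.ord.ToType) ∈ Y} :=
        hj.symm.trans hi
      have h3 := Set.ext_iff.1 h2 ⟨a (j, ⟨Y, hY⟩), hb (j, ⟨Y, hY⟩)⟩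
      exact ha (j, ⟨Y, hY⟩) h3
  · -- J empty: take an index with empty domain
    have := nonempty_toType hκ
    obtain ⟨m, hm⟩ : ∃ m : κ.ord.ToType, ∀ x, ¬ x < m := by
      refine ⟨WellFounded.min (wellFounded_lt (α := κ.ord.ToType)) univ univ_nonempty, ?_⟩
      intro x
      exact WellFounded.not_lt_min (wellFounded_lt (α := κ.ord.ToType)) univ (mem_univ x)
    refine ⟨⟨(m, m), fun _ => ∅⟩, fun X hX => absurd ⟨⟨X, hX⟩⟩ hne, fun Y _ hq => ?_⟩
    obtain ⟨i, _⟩ := hq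
    exact hm i.1 i.2

/-- The filter. -/
def indFilter (hκ : κ.IsRegular) (hω : ℵ₀ < κ)
    (t : Idx κ.ord.ToType → Set κ.ord.ToType) : Filter κ.ord.ToType where
  sets := {X | ∃ J : Set (Set κ.ord.ToType), #J < κ ∧
    ∃ T : Set (Set (Set κ.ord.ToType)), #T < κ ∧ (∀ I ∈ T, κ ≤ #I) ∧
      ∀ q : Idx κ.ord.ToType, (∀ Y ∈ J, q ∈ ind Y) → (∀ I ∈ T, ∃ Y ∈ I, q ∉ ind Y) →
        Thin (t q \ X)}
  univ_sets := ⟨∅, by simpa using hκ.pos, ∅, by simpa using hκ.pos, by simp,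
    fun q _ _ => by simpa using thin_empty⟩
  sets_of_superset := by
    rintro X Y ⟨J, hJ, T, hT, hT2, hX⟩ hXY
    exact ⟨J, hJ, T, hT, hT2, fun q h1 h2 => (hX q h1 h2).mono (sdiff_subset_sdiff_right hXY)⟩
  inter_sets := by
    rintro X Y ⟨J, hJ, T, hT, hT2, hX⟩ ⟨J', hJ', T', hT', hT2', hY⟩
    refine ⟨J ∪ J', (mk_union_le J J').trans_lt (add_lt_of_lt hκ.aleph0_le hJ hJ'),
      T ∪ T', (mk_union_le T T').trans_lt (add_lt_of_lt hκ.aleph0_le hT hT'), ?_, ?_⟩
    · rintro I (hI | hI)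
      · exact hT2 I hI
      · exact hT2' I hI
    · intro q h1 h2
      have hx := hX q (fun Z hZ => h1 Z (Or.inl hZ)) (fun I hI => h2 I (Or.inl hI))
      have hy := hY q (fun Z hZ => h1 Z (Or.inr hZ)) (fun I hI => h2 I (Or.inr hI))
      have h3 := thin_iUnion (ι := ULift.{u} Bool) (fun g => hcU_toType hκ hω g)
        (A := fun b => if b.down then t q \ X else t q \ Y)
        (fun b => by by_cases hb : b.down <;> simp [hb, hx, hy])
      refine h3.mono ?_
      rintro a ⟨ha, hXY⟩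
      by_cases haX : a ∈ X
      · exact mem_iUnion.2 ⟨⟨false⟩, by simpa using ⟨ha, fun haY => hXY ⟨haX, haY⟩⟩⟩
      · exact mem_iUnion.2 ⟨⟨true⟩, by simpa using ⟨ha, haX⟩⟩

theorem mem_indFilter (hκ : κ.IsRegular) (hω : ℵ₀ < κ)
    (t : Idx κ.ord.ToType → Set κ.ord.ToType) (X : Set κ.ord.ToType) :
    X ∈ indFilter hκ hω t ↔ ∃ J : Set (Set κ.ord.ToType), #J < κ ∧
    ∃ T : Set (Set (Set κ.ord.ToType)), #T < κ ∧ (∀ I ∈ T, κ ≤ #I) ∧
      ∀ q : Idx κ.ord.ToType, (∀ Y ∈ J, q ∈ ind Y) → (∀ I ∈ T, ∃ Y ∈ I, q ∉ ind Y) →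
        Thin (t q \ X) := Iff.rfl

/-- Main construction. -/
theorem main (hκ : κ.IsRegular) (hω : ℵ₀ < κ) (h2 : ∀ c < κ, 2 ^ c ≤ κ) :
    ∃ F : Filter κ.ord.ToType, F.NeBot ∧
      (∀ S : Set (Set κ.ord.ToType), #S < κ → (∀ s ∈ S, s ∈ F) → ⋂₀ S ∈ F) ∧
      (∀ C, IsClub C → C ∈ F) ∧
      ∃ A : Set κ.ord.ToType → Set κ.ord.ToType, (∀ i, A i ∈ F) ∧
        ∀ I : Set (Set κ.ord.ToType), κ ≤ #I → (⋂ i ∈ I, A i)ᶜ ∈ F := by
  classical
  have := nonempty_toType hκ
  have hno : ∀ a : κ.ord.ToType, ∃ b, a < b := fun a => by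
    obtain ⟨b, hb⟩ := hcU_toType hκ hω (fun _ : PUnit.{u+1} => a)
    exact ⟨b, hb ⟨⟩⟩
  obtain ⟨t0, ht0, htd0⟩ := exists_pieces hκ hω
  have hle : #(Idx κ.ord.ToType) ≤ #(κ.ord.ToType × κ.ord.ToType) := by
    refine (mk_idx_le hκ h2).trans ?_
    simp only [mk_prod, lift_id, Cardinal.mk_toType, card_ord]
    rw [mul_eq_self hκ.aleph0_le]
  obtain ⟨e⟩ := hle
  let t : Idx κ.ord.ToType → Set κ.ord.ToType := fun q => t0 (e q)
  have ht : ∀ q, ¬ Thin (t q) := fun q => ht0 (e q)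
  have htd : ∀ p q, p ≠ q → Disjoint (t p) (t q) := fun p q hpq =>
    htd0 _ _ (fun h => hpq (e.injective h))
  refine ⟨indFilter hκ hω t, ?_, ?_, ?_, ?_⟩
  · rw [Filter.neBot_iff]
    intro hbot
    have h0 : (∅ : Set κ.ord.ToType) ∈ indFilter hκ hω t := by rw [hbot]; trivial
    obtain ⟨J, hJ, T, hT, hT2, hq⟩ := (mem_indFilter _ _ _ _).1 h0
    have hex : ∀ I : T, ∃ Y ∈ I.1, Y ∉ J := by
      rintro ⟨I, hI⟩
      by_contra hcon
      push Not at hcon
      have := mk_le_mk_of_subset (s := I) (t := J) hcon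
      exact absurd ((hT2 I hI).trans this) (not_le.2 hJ)
    choose Y hY1 hY2 using hex
    obtain ⟨q, hq1, hq2⟩ := ind_spec hκ J (range Y) hJ (mk_range_le.trans_lt hT) (by
      rw [Set.disjoint_left]
      rintro X hX ⟨I, rfl⟩
      exact hY2 I hX)
    have := hq q hq1 (fun I hI => ⟨Y ⟨I, hI⟩, hY1 ⟨I, hI⟩, hq2 _ ⟨_, rfl⟩⟩)
    rw [sdiff_empty] at this
    exact ht _ this
  · intro S hS hSF
    choose! J hJ T hT hT2 hq using fun s (hs : s ∈ S) => (mem_indFilter _ _ _ _).1 (hSF s hs)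
    refine (mem_indFilter _ _ _ _).2 ⟨⋃ s : S, J s.1, ?_, ⋃ s : S, T s.1, ?_, ?_, ?_⟩
    · exact (card_iUnion_lt_iff_forall_of_isRegular hκ hS).2 (fun s => hJ s.1 s.2)
    · exact (card_iUnion_lt_iff_forall_of_isRegular hκ hS).2 (fun s => hT s.1 s.2)
    · intro I hI
      obtain ⟨s, hs⟩ := mem_iUnion.1 hI
      exact hT2 s.1 s.2 I hs
    · intro q h1 h3
      have h4 : ∀ s : S, Thin (t q \ s.1) := fun s =>
        hq s.1 s.2 q (fun Y hY => h1 Y (mem_iUnion.2 ⟨s, hY⟩))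
          (fun I hI => h3 I (mem_iUnion.2 ⟨s, hI⟩))
      refine (thin_iUnion (fun g => bdd_of_lt hκ g hS) h4).mono ?_
      rintro a ⟨ha, haS⟩
      rw [mem_sInter] at haS
      push Not at haS
      obtain ⟨s, hs, has⟩ := haS
      exact mem_iUnion.2 ⟨⟨s, hs⟩, ha, has⟩
  · intro C hC
    refine (mem_indFilter _ _ _ _).2 ⟨∅, by simpa using hκ.pos, ∅, by simpa using hκ.pos,
      by simp, fun q _ _ => ?_⟩
    exact (thin_compl_of_isClub hno hC).mono (fun a ha => ha.2)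
  · have hsep : ∀ q q' a, a ∈ t q → a ∈ t q' → q = q' := by
      intro q q' a h1 h3
      by_contra hne
      exact Set.disjoint_left.1 (htd _ _ hne) h1 h3
    refine ⟨fun Y => {a | ∃ q, a ∈ t q ∧ q ∈ ind Y}, fun Y => ?_, fun I hI => ?_⟩
    · refine (mem_indFilter _ _ _ _).2 ⟨{Y}, ?_, ∅, by simpa using hκ.pos, by simp, ?_⟩
      · simpa using one_lt_aleph0.trans_le hκ.aleph0_le
      · intro q h1 _
        refine thin_empty.mono ?_
        rintro a ⟨ha, ha2⟩
        exact ha2 ⟨q, ha, h1 Y rfl⟩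
    · refine (mem_indFilter _ _ _ _).2 ⟨∅, by simpa using hκ.pos, {I}, ?_, ?_, ?_⟩
      · simpa using one_lt_aleph0.trans_le hκ.aleph0_le
      · rintro _ rfl
        exact hI
      · intro q _ h1
        obtain ⟨Y, hY, hqY⟩ := h1 I rfl
        refine thin_empty.mono ?_
        rintro a ⟨ha, ha2⟩
        apply ha2
        intro ha3
        obtain ⟨q', hq', hq''⟩ := mem_iInter₂.1 ha3 Y hY
        rw [hsep q q' a ha hq'] at hqY
        exact hqY hq''

end Pool.Agent.Y585.IG
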