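import Mathlib

/-!
# MP_d5a1e1_nt: bases of order `h` given by finite systems of affine equations

`reps A h n` is the set of the unordered representations of `n` as a sum of `h` elements of `A`, so
that `r_{A,h}(n)` is its cardinality.

A family `A i` (`i` in a finite set) of sets of natural numbers is a *solution of a finite affine
system* (`IsSolution E F A`) if
`A i = F i ∪ ⋃ (q A_j + d)`, the union being taken over finitely many edges `(i, j, q, d)`, where the
`F i` are finite and the multipliers `q ≥ 2` may all be different.  Examples: all automatic sets (all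
multipliers equal), the smallest set which contains a given number and is closed under given maps
`x ↦ q_1 x + d_1, …, x ↦ q_k x + d_k` (Klarner and Rado), and graph-directed unions of these, in
which digits in several bases are mixed according to a finite automaton.

1. Dichotomy: either `A i` has at most `C (log (N + 2)) ^ k` elements up to `N` for all `N`, or for
   every set `B ⊇ A i` there is `c > 0` such that for EVERY `h ≥ 2` there are infinitely many `n`
   with `r_{B,h}(n) ≥ n ^ (c ⌊h/2⌋)`.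
2. The second alternative holds for every finite union `B` of such sets which is an asymptotic basis
   of some order, or which has at least `N ^ ε` elements up to `N` for some `ε > 0` and arbitrarily
   large `N`.

Method.  If there are two different closed walks at a vertex with the same product of multipliers
`Q`, the corresponding maps `x ↦ Q x + D`, `x ↦ Q x + D'` generate symmetric sets with `2 ^ m`
elements of size `O(Q ^ m)`; a symmetric set with `2 u` elements gives `C(u + m' - 1, m')`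
representations of one number, `m' = ⌊h/2⌋`.  Otherwise the maps of the closed walks at a vertex are
determined by the product of the multipliers, and a decomposition of the walks shows that there are
only `O((log N) ^ k)` maps of walks with product of multipliers at most `N`.
-/

set_option autoImplicit false

namespace Pool.Agent.Y585.AffineSystemsOrderH

open Finset

/-- The unordered representations of `n` as a sum of `h` elements of `A`. -/
def reps (A : Set ℕ) (h n : ℕ) : Set (Multiset ℕ) :=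
  {s : Multiset ℕ | Multiset.card s = h ∧ (∀ a ∈ s, a ∈ A) ∧ s.sum = n}

/-- `A i = F i ∪ ⋃ (q A_j + d)`, the union over all edges `(i, j, q, d)` in `E`. -/
def IsSolution {ι : Type} (E : Finset (ι × ι × ℕ × ℤ)) (F : ι → Finset ℕ) (A : ι → Set ℕ) : Prop :=
  (∀ i, ∀ x ∈ F i, x ∈ A i) ∧
  (∀ i j q d, (i, j, q, d) ∈ E → ∀ y ∈ A j, ∃ x ∈ A i, (x : ℤ) = q * y + d) ∧
  (∀ i, ∀ x ∈ A i, x ∈ F i ∨ ∃ j q d, (i, j, q, d) ∈ E ∧ ∃ y ∈ A j, (x : ℤ) = q * y + d)

theorem reps_exists_fun {A : Set ℕ} {h n : ℕ} {s : Multiset ℕ} (hs : s ∈ reps A h n) :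
    ∃ f : Fin h → ℕ, (∀ i, f i ∈ A) ∧ (∀ i, f i ≤ n) ∧ Multiset.ofList (List.ofFn f) = s := by
  obtain ⟨hc, hA, hsum⟩ := hs
  obtain ⟨l, rfl⟩ := Quotient.exists_rep s
  have hl : l.length = h := hc
  subst hl
  refine ⟨fun i => l.get i, fun i => hA _ (by simp), fun i => ?_, ?_⟩
  · have h1 : (l.get i) ∈ (Multiset.ofList l) := by simp
    have h2 := Multiset.single_le_sum (s := Multiset.ofList l) (fun x _ => Nat.zero_le x) _ h1
    have h3 : (Multiset.ofList l).sum = n := hsum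
    show l.get i ≤ n
    omega
  · rw [List.ofFn_get]
    rfl

theorem reps_finite (A : Set ℕ) (h n : ℕ) : (reps A h n).Finite := by
  have h1 : (Set.range fun f : Fin h → Fin (n + 1) =>
      Multiset.ofList (List.ofFn fun i => (f i : ℕ))).Finite := Set.finite_range _
  refine h1.subset ?_
  intro s hs
  obtain ⟨f, _, hf, rfl⟩ := reps_exists_fun hs
  exact ⟨fun i => ⟨f i, Nat.lt_succ_of_le (hf i)⟩, rfl⟩

/-- a multiset of the upper half of a symmetric set is determined by its symmetrisation -/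
lemma sym_inj {M : ℕ} {s t : Multiset ℕ} (hs : ∀ x ∈ s, M ≤ 2 * x ∧ x ≤ M)
    (ht : ∀ x ∈ t, M ≤ 2 * x ∧ x ≤ M)
    (h : s + s.map (fun x => M - x) = t + t.map (fun x => M - x)) : s = t := by
  classical
  have key : ∀ s : Multiset ℕ, (∀ x ∈ s, M ≤ 2 * x ∧ x ≤ M) → ∀ y : ℕ, M ≤ 2 * y →
      Multiset.count y (s.map (fun x => M - x)) =
        if 2 * y = M then Multiset.count y s else 0 := by
    intro s
    induction s using Multiset.induction with
    | empty => intro _ y _; simp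
    | cons a s ih =>
      intro hs y hy
      have ha := hs a (Multiset.mem_cons_self a s)
      have ih' := ih (fun x hx => hs x (Multiset.mem_cons_of_mem hx)) y hy
      rw [Multiset.map_cons, Multiset.count_cons, ih', Multiset.count_cons]
      by_cases h1 : 2 * y = M
      · rw [if_pos h1, if_pos h1]
        by_cases h2 : y = a
        · rw [if_pos h2, if_pos (by omega)]
        · rw [if_neg h2, if_neg (by omega)]
      · rw [if_neg h1, if_neg h1, if_neg (by omega)]
  ext y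
  by_cases hy : M ≤ 2 * y
  · have h1 := congrArg (Multiset.count y) h
    rw [Multiset.count_add, Multiset.count_add, key s hs y hy, key t ht y hy] at h1
    split_ifs at h1 with h2
    · omega
    · omega
  · have h1 : y ∉ s := fun h => hy (hs y h).1
    have h2 : y ∉ t := fun h => hy (ht y h).1
    rw [Multiset.count_eq_zero_of_notMem h1, Multiset.count_eq_zero_of_notMem h2]

/-- A symmetric subset of `A` with at least `2 u + 1` elements gives `C(u + m, m)` representations,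
`m = ⌊h / 2⌋`. -/
lemma reps_of_symmetric {A : Set ℕ} {h : ℕ} (hh : 2 ≤ h) {X : Finset ℕ} {M u : ℕ}
    (hX : ∀ x ∈ X, x ∈ A ∧ x ≤ M) (hM : ∀ x ∈ X, x ≤ M ∧ M - x ∈ X) (hu : 2 * u + 1 ≤ X.card) :
    ∃ n : ℕ, X.card ≤ n + 1 ∧ n ≤ h * M ∧ (u + h / 2).choose (h / 2) ≤ (reps A h n).ncard := by
  classical
  obtain ⟨a0, ha0⟩ : X.Nonempty := Finset.card_pos.1 (by omega)
  set m := h / 2 with hm
  set P := X.filter (fun x => M ≤ 2 * x) with hP
  have hPc : u + 1 ≤ P.card := by
    have h1 : X ⊆ P ∪ P.image (fun x => M - x) := by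
      intro x hx
      by_cases hxM : M ≤ 2 * x
      · exact Finset.mem_union_left _ (Finset.mem_filter.2 ⟨hx, hxM⟩)
      · have h2 := hM x hx
        refine Finset.mem_union_right _ (Finset.mem_image.2 ⟨M - x, ?_, by omega⟩)
        exact Finset.mem_filter.2 ⟨h2.2, by omega⟩
    have h2 := Finset.card_le_card h1
    have h3 := Finset.card_union_le P (P.image (fun x => M - x))
    have h4 : (P.image (fun x => M - x)).card ≤ P.card := Finset.card_image_le
    omega
  have hXM : X.card ≤ M + 1 := by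
    have h1 : X ⊆ Finset.range (M + 1) := fun x hx => Finset.mem_range.2 (by
      have := (hX x hx).2
      omega)
    simpa using Finset.card_le_card h1
  let φ : Sym {x // x ∈ P} m → Multiset ℕ := fun s =>
    ((s : Multiset {x // x ∈ P}).map Subtype.val +
      ((s : Multiset {x // x ∈ P}).map Subtype.val).map (fun x => M - x)) +
        Multiset.replicate (h - 2 * m) a0
  have hmem : ∀ (s : Sym {x // x ∈ P} m), ∀ x ∈ (s : Multiset {x // x ∈ P}).map Subtype.val,
      x ∈ P := by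
    intro s x hx
    rw [Multiset.mem_map] at hx
    obtain ⟨y, _, rfl⟩ := hx
    exact y.2
  have hsum : ∀ t : Multiset ℕ, (∀ x ∈ t, x ≤ M) →
      (t + t.map (fun x => M - x)).sum = Multiset.card t * M := by
    intro t
    induction t using Multiset.induction with
    | empty => intro _; simp
    | cons a t ih =>
      intro ht
      have h1 := ih (fun x hx => ht x (Multiset.mem_cons_of_mem hx))
      have h2 := ht a (Multiset.mem_cons_self a t)
      rw [Multiset.sum_add] at h1 ⊢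
      rw [Multiset.sum_cons, Multiset.map_cons, Multiset.sum_cons, Multiset.card_cons, add_mul,
        one_mul, ← h1]
      omega
  refine ⟨m * M + (h - 2 * m) * a0, ?_, ?_, ?_⟩
  · have h1 : 1 * M ≤ m * M := Nat.mul_le_mul_right _ (by omega)
    omega
  · have h2 : (h - 2 * m) * a0 ≤ (h - 2 * m) * M := Nat.mul_le_mul_left _ (hX a0 ha0).2
    have h3 : m * M + (h - 2 * m) * M + m * M = h * M := by
      have h4 : 2 * m ≤ h := by omega
      obtain ⟨k, hk⟩ := Nat.exists_eq_add_of_le h4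
      rw [hk, Nat.add_sub_cancel_left]
      ring
    omega
  · have hφ : ∀ s, φ s ∈ reps A h (m * M + (h - 2 * m) * a0) := by
      intro s
      have hs : Multiset.card ((s : Multiset {x // x ∈ P}).map Subtype.val) = m := by
        rw [Multiset.card_map]; exact s.2
      refine ⟨?_, ?_, ?_⟩
      · show Multiset.card ((_ + _) + _) = h
        rw [Multiset.card_add, Multiset.card_add, Multiset.card_map _ (Multiset.map _ _), hs,
          Multiset.card_replicate]
        omega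
      · intro a ha
        rw [Multiset.mem_add, Multiset.mem_add, Multiset.mem_replicate] at ha
        rcases ha with (ha | ha) | ⟨_, rfl⟩
        · exact (hX a (Finset.mem_filter.1 (hmem s a ha)).1).1
        · rw [Multiset.mem_map] at ha
          obtain ⟨b, hb, rfl⟩ := ha
          exact (hX _ (hM b (Finset.mem_filter.1 (hmem s b hb)).1).2).1
        · exact (hX _ ha0).1
      · show Multiset.sum ((_ + _) + _) = _
        rw [Multiset.sum_add, hsum _ (fun x hx => (hM x (Finset.mem_filter.1 (hmem s x hx)).1).1), hs,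
          Multiset.sum_replicate, smul_eq_mul]
    have hinj : Function.Injective φ := by
      intro s t hst
      have h1 := Multiset.add_left_inj.1 hst
      have h2 : ∀ s : Sym {x // x ∈ P} m,
          ∀ x ∈ (s : Multiset {x // x ∈ P}).map Subtype.val, M ≤ 2 * x ∧ x ≤ M := by
        intro s x hx
        have h3 := Finset.mem_filter.1 (hmem s x hx)
        exact ⟨h3.2, (hM x h3.1).1⟩
      have h3 := sym_inj (h2 s) (h2 t) h1
      have h4 := Multiset.map_injective Subtype.val_injective h3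
      exact Subtype.ext h4
    have h1 : Fintype.card (Sym {x // x ∈ P} m) ≤
        (reps A h (m * M + (h - 2 * m) * a0)).ncard := by
      rw [← Finset.card_univ, ← Finset.card_image_of_injective _ hinj, ← Set.ncard_coe_finset]
      refine Set.ncard_le_ncard ?_ (reps_finite _ _ _)
      intro t ht
      rw [Finset.mem_coe, Finset.mem_image] at ht
      obtain ⟨s, _, rfl⟩ := ht
      exact hφ s
    refine le_trans ?_ h1
    rw [Sym.card_sym_eq_multichoose, Fintype.card_coe, Nat.multichoose_eq]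
    exact Nat.choose_le_choose m (by omega)



/-- A symmetric subset of `A` with at least `2 u + 1` elements, second form. -/
lemma reps_of_symmetric' {A : Set ℕ} {h : ℕ} (hh : 2 ≤ h) {M : ℤ} {u : ℕ} {X : Finset ℤ}
    (hX : ∀ x ∈ X, ∃ a ∈ A, (a : ℤ) = x) (hM : ∀ x ∈ X, M - x ∈ X) (hu : 2 * u + 1 ≤ X.card) :
    ∃ n : ℕ, X.card ≤ n + 1 ∧ (n : ℤ) ≤ h * M ∧
      (u + h / 2).choose (h / 2) ≤ (reps A h n).ncard := by
  classical
  obtain ⟨x0, hx0⟩ : X.Nonempty := Finset.card_pos.1 (by omega)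
  obtain ⟨a0, -, ha0⟩ := hX x0 hx0
  obtain ⟨b0, -, hb0⟩ := hX _ (hM x0 hx0)
  have hMn : ((M.toNat : ℕ) : ℤ) = M := Int.toNat_of_nonneg (by omega)
  have q1 : ∀ x ∈ X.image Int.toNat, x ∈ A ∧ x ≤ M.toNat := by
    intro x hx
    rw [Finset.mem_image] at hx
    obtain ⟨y, hy, rfl⟩ := hx
    obtain ⟨a, ha, hay⟩ := hX y hy
    obtain ⟨b, -, hby⟩ := hX _ (hM y hy)
    have h1 : y.toNat = a := by omega
    rw [h1]
    exact ⟨ha, by omega⟩
  have q2 : ∀ x ∈ X.image Int.toNat, x ≤ M.toNat ∧ M.toNat - x ∈ X.image Int.toNat := by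
    intro x hx
    rw [Finset.mem_image] at hx
    obtain ⟨y, hy, rfl⟩ := hx
    obtain ⟨a, -, hay⟩ := hX y hy
    obtain ⟨b, -, hby⟩ := hX _ (hM y hy)
    refine ⟨by omega, Finset.mem_image.2 ⟨M - y, hM y hy, by omega⟩⟩
  have hc : (X.image Int.toNat).card = X.card := by
    rw [Finset.card_image_of_injOn]
    intro x hx y hy hxy
    obtain ⟨a, -, hay⟩ := hX x hx
    obtain ⟨b, -, hby⟩ := hX y hy
    omega
  obtain ⟨n, hn0, hn, hle⟩ := reps_of_symmetric hh q1 q2 (by rw [hc]; exact hu)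
  refine ⟨n, by rw [← hc]; exact hn0, ?_, hle⟩
  rw [← hMn]
  exact_mod_cast hn

section walks

variable {ι : Type}

/-- there is a walk from `i` to `j`, all vertices after `i` in `V`, with composite map
`x ↦ Q x + D` -/
inductive W (E : Finset (ι × ι × ℕ × ℤ)) (V : Finset ι) : ι → ι → ℕ → ℤ → Prop
  | nil (i : ι) : W E V i i 1 0
  | cons {i j l : ι} {q : ℕ} {d : ℤ} {Q : ℕ} {D : ℤ} : (i, j, q, d) ∈ E → j ∈ V →
      W E V j l Q D → W E V i l (q * Q) (q * D + d)

variable {E : Finset (ι × ι × ℕ × ℤ)} {V : Finset ι}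

lemma W.trans {i j l : ι} {Q Q' : ℕ} {D D' : ℤ} (h : W E V i j Q D) (h' : W E V j l Q' D') :
    W E V i l (Q * Q') (Q * D' + D) := by
  induction h with
  | nil i => simpa using h'
  | cons he hj _ ih =>
    have h2 := W.cons he hj (ih h')
    have e1 : ∀ (q Q Q' : ℕ), q * (Q * Q') = q * Q * Q' := fun q Q Q' => by ring
    rw [e1] at h2
    convert h2 using 1
    push_cast
    ring

lemma W.mono [DecidableEq ι] {V' : Finset ι} (hV : V ⊆ V') {i j : ι} {Q : ℕ} {D : ℤ}
    (h : W E V i j Q D) : W E V' i j Q D := by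
  induction h with
  | nil i => exact W.nil i
  | cons he hj _ ih => exact W.cons he (hV hj) ih

lemma W.split [DecidableEq ι] (v : ι) {i l : ι} {Q : ℕ} {D : ℤ} (h : W E V i l Q D) :
    W E (V.erase v) i l Q D ∨ ∃ Q1 D1 Q2 D2, W E V i v Q1 D1 ∧ W E (V.erase v) v l Q2 D2 ∧
      Q = Q1 * Q2 ∧ D = Q1 * D2 + D1 := by
  induction h with
  | nil i => exact Or.inl (W.nil i)
  | @cons i j l q d Q D he hj hw ih =>
    rcases ih with h1 | ⟨Q1, D1, Q2, D2, h1, h2, h3, h4⟩
    · by_cases hjv : j = v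
      · subst hjv
        right
        refine ⟨q * 1, q * 0 + d, Q, D, W.cons he hj (W.nil j), h1, by ring, by push_cast; ring⟩
      · left
        exact W.cons he (Finset.mem_erase.2 ⟨hjv, hj⟩) h1
    · right
      refine ⟨q * Q1, q * D1 + d, Q2, D2, W.cons he hj h1, h2, by rw [h3]; ring, ?_⟩
      rw [h4]; push_cast; ring

lemma W.pos (hE : ∀ i j q d, (i, j, q, d) ∈ E → 2 ≤ q) {i j : ι} {Q : ℕ} {D : ℤ}
    (h : W E V i j Q D) : 1 ≤ Q ∧ (Q = 1 → D = 0) := by
  induction h with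
  | nil i => exact ⟨le_rfl, fun _ => rfl⟩
  | @cons i j l q d Q D he hj _ ih =>
    have h1 := hE _ _ _ _ he
    have h2 : 2 ≤ q * Q := by nlinarith [ih.1]
    exact ⟨by omega, fun h => by omega⟩

/-- the multiplier of a walk is a product of powers of the multipliers of the edges -/
lemma W.exponents [DecidableEq ι] {i j : ι} {Q : ℕ} {D : ℤ} (h : W E V i j Q D) :
    ∃ a : (ι × ι × ℕ × ℤ) → ℕ, Q = ∏ e ∈ E, e.2.2.1 ^ a e := by
  induction h with
  | nil i => exact ⟨fun _ => 0, by simp⟩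
  | @cons i j l q d Q D he hj _ ih =>
    obtain ⟨a, ha⟩ := ih
    refine ⟨fun e => a e + if e = (i, j, q, d) then 1 else 0, ?_⟩
    simp only [pow_add, Finset.prod_mul_distrib, ← ha]
    rw [Finset.prod_eq_single_of_mem (i, j, q, d) he]
    · simp [mul_comm]
    · intro b _ hb
      simp [hb]

/-- the multipliers of walks up to `X` -/
lemma card_multipliers [DecidableEq ι] (hE : ∀ i j q d, (i, j, q, d) ∈ E → 2 ≤ q) (X : ℕ) :
    ∃ T : Finset ℕ, T.card ≤ (Nat.log 2 X + 1) ^ E.card ∧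
      ∀ (V : Finset ι) (i j : ι) (Q : ℕ) (D : ℤ), W E V i j Q D → Q ≤ X → Q ∈ T := by
  classical
  refine ⟨(Fintype.piFinset (fun _ : E => Finset.range (Nat.log 2 X + 1))).image
    (fun a => ∏ e : E, (e : ι × ι × ℕ × ℤ).2.2.1 ^ a e), ?_, ?_⟩
  · refine le_trans Finset.card_image_le ?_
    rw [Fintype.card_piFinset, Finset.prod_const, Finset.card_range, Finset.card_univ,
      Fintype.card_coe]
  · intro V i j Q D h hQ
    obtain ⟨a, ha⟩ := h.exponents
    rw [Finset.mem_image]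
    refine ⟨fun e => a e, ?_, ?_⟩
    · rw [Fintype.mem_piFinset]
      rintro ⟨e, he⟩
      rw [Finset.mem_range]
      have h1 : 2 ^ a e ≤ Q := by
        have h2 : e.2.2.1 ^ a e ≤ ∏ e ∈ E, e.2.2.1 ^ a e := by
          refine Nat.le_of_dvd (Finset.prod_pos fun e he => ?_)
            (Finset.dvd_prod_of_mem (fun e : ι × ι × ℕ × ℤ => e.2.2.1 ^ a e) he)
          have := hE e.1 e.2.1 e.2.2.1 e.2.2.2 he
          positivity
        rw [← ha] at h2
        exact (Nat.pow_le_pow_left (hE _ _ _ _ he) _).trans h2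
      have h3 := Nat.le_log_of_pow_le (by norm_num) (h1.trans hQ)
      simp only
      omega
    · rw [ha, ← Finset.prod_coe_sort E]

/-- the number of maps of walks, if the closed walks are determined by their multipliers -/
lemma card_walks [DecidableEq ι] (hE : ∀ i j q d, (i, j, q, d) ∈ E → 2 ≤ q) (V₀ : Finset ι)
    (hc : ∀ j ∈ V₀, ∀ Q D D', W E V₀ j j Q D → W E V₀ j j Q D' → D = D') (X : ℕ) :
    ∀ n : ℕ, ∀ V ⊆ V₀, V.card ≤ n → ∀ i l : ι, ∃ T : Finset (ℕ × ℤ),
      T.card ≤ (((Nat.log 2 X + 1) ^ E.card) * (1 + E.card)) ^ (n + 1) ∧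
      ∀ Q D, W E V i l Q D → Q ≤ X → (Q, D) ∈ T := by
  classical
  obtain ⟨M, hM, hMm⟩ := card_multipliers hE X
  set c := (Nat.log 2 X + 1) ^ E.card with hcd
  have hc1 : 1 ≤ c := Nat.one_le_pow _ _ (by omega)
  -- closed walks
  have closed : ∀ V ⊆ V₀, ∀ j ∈ V, ∃ T : Finset (ℕ × ℤ), T.card ≤ c ∧
      ∀ Q D, W E V j j Q D → Q ≤ X → (Q, D) ∈ T := by
    intro V hV j hj
    have h1 : ∀ Q : ℕ, ∃ D : ℤ, ∀ D', W E V j j Q D' → D' = D := by
      intro Q
      by_cases h : ∃ D, W E V j j Q D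
      · obtain ⟨D, hD⟩ := h
        exact ⟨D, fun D' hD' => hc j (hV hj) Q D' D (hD'.mono hV) (hD.mono hV)⟩
      · exact ⟨0, fun D' hD' => absurd ⟨D', hD'⟩ h⟩
    choose f hf using h1
    refine ⟨M.image (fun Q => (Q, f Q)), Finset.card_image_le.trans hM, ?_⟩
    intro Q D h hQ
    rw [Finset.mem_image]
    exact ⟨Q, hMm V j j Q D h hQ, by rw [hf Q D h]⟩
  intro n
  induction n with
  | zero =>
    intro V hV hV0 i l
    have hVe : V = ∅ := Finset.card_eq_zero.1 (by omega)
    subst hVe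
    refine ⟨{(1, 0)}, ?_, ?_⟩
    · rw [Finset.card_singleton]
      exact Nat.one_le_pow _ _ (Nat.mul_pos hc1 (by omega))
    · intro Q D h _
      cases h with
      | nil => simp
      | cons _ hj _ => exact absurd hj (Finset.notMem_empty _)
  | succ n ih =>
    intro V hV hVn i l
    -- walks from a vertex in `V`
    have start : ∀ j ∈ V, ∃ T : Finset (ℕ × ℤ), T.card ≤ c * (c * (1 + E.card)) ^ (n + 1) ∧
        ∀ Q D, W E V j l Q D → Q ≤ X → (Q, D) ∈ T := by
      intro j hj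
      obtain ⟨T1, hT1, hT1m⟩ := closed V hV j hj
      obtain ⟨T2, hT2, hT2m⟩ := ih (V.erase j) ((Finset.erase_subset _ _).trans hV)
        (by rw [Finset.card_erase_of_mem hj]; omega) j l
      refine ⟨(T1 ×ˢ T2).image (fun p => (p.1.1 * p.2.1, (p.1.1 : ℤ) * p.2.2 + p.1.2)), ?_, ?_⟩
      · refine Finset.card_image_le.trans ?_
        rw [Finset.card_product]
        exact Nat.mul_le_mul hT1 hT2
      · intro Q D h hQ
        rw [Finset.mem_image]
        rcases h.split j with h1 | ⟨Q1, D1, Q2, D2, h1, h2, h3, h4⟩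
        · have h0 := hT1m 1 0 (W.nil j) (by have := (h.pos hE).1; omega)
          exact ⟨((1, 0), (Q, D)), Finset.mem_product.2 ⟨h0, hT2m Q D h1 hQ⟩, by simp⟩
        · have p1 := (h1.pos hE).1
          have p2 := (h2.pos hE).1
          refine ⟨((Q1, D1), (Q2, D2)), Finset.mem_product.2 ⟨hT1m Q1 D1 h1 ?_,
            hT2m Q2 D2 h2 ?_⟩, by rw [h3, h4]⟩
          · nlinarith
          · nlinarith
    choose! T hTc hTm using start
    refine ⟨insert (1, 0) ((E.filter (fun e => e.2.1 ∈ V)).biUnion (fun e => (T e.2.1).image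
      (fun p => (e.2.2.1 * p.1, (e.2.2.1 : ℤ) * p.2 + e.2.2.2)))), ?_, ?_⟩
    · refine (Finset.card_insert_le _ _).trans ?_
      have h1 : ((E.filter (fun e => e.2.1 ∈ V)).biUnion (fun e => (T e.2.1).image
          (fun p => (e.2.2.1 * p.1, (e.2.2.1 : ℤ) * p.2 + e.2.2.2)))).card ≤
          E.card * (c * (c * (1 + E.card)) ^ (n + 1)) := by
        refine Finset.card_biUnion_le.trans ?_
        refine (Finset.sum_le_card_nsmul _ _ (c * (c * (1 + E.card)) ^ (n + 1)) ?_).trans ?_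
        · intro e he
          exact Finset.card_image_le.trans (hTc _ (Finset.mem_filter.1 he).2)
        · rw [smul_eq_mul]
          exact Nat.mul_le_mul_right _ (Finset.card_filter_le _ _)
      have h2 : 1 ≤ c * (c * (1 + E.card)) ^ (n + 1) :=
        Nat.mul_pos hc1 (Nat.one_le_pow _ _ (Nat.mul_pos hc1 (by omega)))
      calc _ ≤ E.card * (c * (c * (1 + E.card)) ^ (n + 1)) +
            c * (c * (1 + E.card)) ^ (n + 1) := by omega
        _ = (c * (1 + E.card)) ^ (n + 1 + 1) := by ring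
    · intro Q D h hQ
      rw [Finset.mem_insert]
      cases h with
      | nil => left; rfl
      | @cons _ j _ q d Q D he hj hw =>
        right
        rw [Finset.mem_biUnion]
        have h1 := hE _ _ _ _ he
        have h2 := (hw.pos hE).1
        exact ⟨(i, j, q, d), Finset.mem_filter.2 ⟨he, hj⟩, Finset.mem_image.2
          ⟨(Q, D), hTm j hj Q D hw (by nlinarith), rfl⟩⟩

/-- walks act on the sets of a solution -/
lemma W.maps {F : ι → Finset ℕ} {A : ι → Set ℕ} (hA : IsSolution E F A) {i j : ι} {Q : ℕ} {D : ℤ}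
    (h : W E V i j Q D) : ∀ y ∈ A j, ∃ x ∈ A i, (x : ℤ) = Q * y + D := by
  induction h with
  | nil i => exact fun y hy => ⟨y, hy, by simp⟩
  | cons he hj _ ih =>
    intro y hy
    obtain ⟨z, hz, hzy⟩ := ih y hy
    obtain ⟨x, hx, hxz⟩ := hA.2.1 _ _ _ _ he z hz
    refine ⟨x, hx, ?_⟩
    rw [hxz, hzy]; push_cast; ring

/-- every element comes from a small element, by a walk with a multiplier that is not too large -/
lemma descent [DecidableEq ι] {F : ι → Finset ℕ} {A : ι → Set ℕ}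
    (hE : ∀ i j q d, (i, j, q, d) ∈ E → 2 ≤ q) (hA : IsSolution E F A) {B qm : ℕ}
    (hB : ∀ i j q d, (i, j, q, d) ∈ E → -(B : ℤ) ≤ d ∧ q ≤ qm) (hF : ∀ i, ∀ x ∈ F i, x ≤ B)
    {R : ι → Prop} (hR : ∀ i j q d, (i, j, q, d) ∈ E → R i → R j)
    (hV : ∀ j, R j → (A j).Nonempty → j ∈ V) :
    ∀ x : ℕ, ∀ i, R i → x ∈ A i → ∃ (j : ι) (Q : ℕ) (D : ℤ) (y : ℕ), W E V i j Q D ∧ y ∈ A j ∧
      y ≤ B ∧ (x : ℤ) = Q * y + D ∧ (x ≤ B → Q = 1) ∧ (B < x → Q ≤ qm * (x - B)) := by
  intro x
  induction x using Nat.strong_induction_on with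
  | _ x ih =>
    intro i hi hx
    by_cases hxB : x ≤ B
    · exact ⟨i, 1, 0, x, W.nil i, hx, hxB, by simp, fun _ => rfl, fun h => by omega⟩
    · rcases hA.2.2 i x hx with h | ⟨j, q, d, he, y, hy, hxy⟩
      · exact absurd (hF i x h) hxB
      · have hq := hE _ _ _ _ he
        obtain ⟨hd, hqm⟩ := hB _ _ _ _ he
        have h1 : (q : ℤ) * y ≤ x + B := by omega
        have h1' : q * y ≤ x + B := by exact_mod_cast h1
        have hyx : y < x := by nlinarith
        have hRj := hR _ _ _ _ he hi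
        obtain ⟨l, Q, D, z, hw, hz, hzB, hyz, h2, h3⟩ := ih y hyx j hRj hy
        refine ⟨l, q * Q, q * D + d, z, W.cons he (hV j hRj ⟨y, hy⟩) hw, hz, hzB, ?_,
          fun h => absurd h hxB, fun _ => ?_⟩
        · rw [hxy, hyz]; push_cast; ring
        · by_cases hyB : y ≤ B
          · rw [h2 hyB, mul_one]
            exact hqm.trans (Nat.le_mul_of_pos_right _ (by omega))
          · have h4 := h3 (by omega)
            have h5 : q * (y - B) ≤ x - B := by
              obtain ⟨t, ht⟩ := Nat.exists_eq_add_of_lt (by omega : B < y)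
              have h6 : y - B = t + 1 := by omega
              rw [h6]
              have h7 : q * y = q * B + q * (t + 1) := by rw [ht]; ring
              have h8 : 2 * B ≤ q * B := Nat.mul_le_mul_right _ hq
              omega
            calc q * Q ≤ q * (qm * (y - B)) := Nat.mul_le_mul_left _ h4
              _ = qm * (q * (y - B)) := by ring
              _ ≤ qm * (x - B) := Nat.mul_le_mul_left _ h5

end walks

/-- the `0`-`1` digit sums in base `Q` -/
def dig (Q : ℕ) : ℕ → Finset ℕ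
  | 0 => {0}
  | m + 1 => (dig Q m).image (fun s => Q * s) ∪ (dig Q m).image (fun s => Q * s + 1)

/-- the largest of them -/
def top (Q : ℕ) : ℕ → ℕ
  | 0 => 0
  | m + 1 => Q * top Q m + 1

lemma card_dig {Q : ℕ} (hQ : 2 ≤ Q) (m : ℕ) : (dig Q m).card = 2 ^ m := by
  induction m with
  | zero => simp [dig]
  | succ m ih =>
    have hQ0 : 0 < Q := by omega
    rw [dig, Finset.card_union_of_disjoint, Finset.card_image_of_injective,
      Finset.card_image_of_injective, ih, pow_succ]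
    · ring
    · intro a b h
      simp only at h
      exact Nat.eq_of_mul_eq_mul_left hQ0 (by omega)
    · intro a b h
      simp only at h
      exact Nat.eq_of_mul_eq_mul_left hQ0 h
    · rw [Finset.disjoint_left]
      intro x hx hx'
      rw [Finset.mem_image] at hx hx'
      obtain ⟨a, _, rfl⟩ := hx
      obtain ⟨b, _, hb⟩ := hx'
      have h1 := congrArg (· % Q) hb
      simp only [Nat.mul_add_mod, Nat.mul_mod_right] at h1
      rw [Nat.mod_eq_of_lt (by omega)] at h1
      omega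

lemma dig_symm {Q : ℕ} (m : ℕ) : ∀ s ∈ dig Q m, s ≤ top Q m ∧ top Q m - s ∈ dig Q m := by
  induction m with
  | zero => intro s hs; simp only [dig, Finset.mem_singleton] at hs; subst hs; simp [dig, top]
  | succ m ih =>
    intro s hs
    rw [dig, Finset.mem_union, Finset.mem_image, Finset.mem_image] at hs
    rcases hs with ⟨a, ha, rfl⟩ | ⟨a, ha, rfl⟩
    · obtain ⟨h1, h2⟩ := ih a ha
      have h3 : Q * a ≤ Q * top Q m := Nat.mul_le_mul_left _ h1
      refine ⟨by rw [top]; omega, ?_⟩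
      rw [dig, Finset.mem_union, Finset.mem_image, Finset.mem_image]
      right
      refine ⟨top Q m - a, h2, ?_⟩
      rw [top, Nat.mul_sub]
      omega
    · obtain ⟨h1, h2⟩ := ih a ha
      have h3 : Q * a ≤ Q * top Q m := Nat.mul_le_mul_left _ h1
      refine ⟨by rw [top]; omega, ?_⟩
      rw [dig, Finset.mem_union, Finset.mem_image, Finset.mem_image]
      left
      refine ⟨top Q m - a, h2, ?_⟩
      rw [top, Nat.mul_sub]
      omega

lemma top_lt {Q : ℕ} (hQ : 2 ≤ Q) (m : ℕ) : top Q m < Q ^ m := by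
  induction m with
  | zero => simp [top]
  | succ m ih =>
    rw [top, pow_succ]
    nlinarith

/-- the base points -/
def base (Q : ℕ) (D a : ℤ) : ℕ → ℤ
  | 0 => a
  | m + 1 => Q * base Q D a m + D

lemma base_le {Q : ℕ} (hQ : 2 ≤ Q) (D a : ℤ) (m : ℕ) :
    base Q D a m + |D| ≤ Q ^ m * (|a| + |D|) := by
  induction m with
  | zero => simp only [base, pow_zero, one_mul]; linarith [le_abs_self a]
  | succ m ih =>
    rw [base, pow_succ]
    have h1 : (0 : ℤ) ≤ |D| := abs_nonneg D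
    have h2 := le_abs_self D
    have h3 : (2 : ℤ) ≤ Q := by exact_mod_cast hQ
    nlinarith [mul_le_mul_of_nonneg_left ih (by linarith : (0 : ℤ) ≤ Q)]

/-- two different maps with the same multiplier -/
lemma power_growth {S T : Set ℕ} {Q : ℕ} {D D' : ℤ} (hQ : 2 ≤ Q) (hD : D ≠ D')
    (h1 : ∀ y ∈ S, ∃ x ∈ S, (x : ℤ) = Q * y + D) (h2 : ∀ y ∈ S, ∃ x ∈ S, (x : ℤ) = Q * y + D')
    {a : ℕ} (ha : a ∈ S) {P : ℕ} {G : ℤ} (hP : 1 ≤ P)
    (h3 : ∀ y ∈ S, ∃ x ∈ T, (x : ℤ) = P * y + G) :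
    ∃ c : ℝ, 0 < c ∧ ∀ h : ℕ, 2 ≤ h → ∀ N₀ : ℕ, ∃ n : ℕ, N₀ ≤ n ∧
      (n : ℝ) ^ (c * ((h / 2 : ℕ) : ℝ)) ≤ ((reps T h n).ncard : ℝ) := by
  classical
  have hQR : (1 : ℝ) < Q := by exact_mod_cast (by omega : 1 < Q)
  have hlogQ : 0 < Real.log Q := Real.log_pos hQR
  have hlog2 : 0 < Real.log 2 := Real.log_pos (by norm_num)
  have hδ : D' - D ≠ 0 := sub_ne_zero.2 (Ne.symm hD)
  -- the points
  have pts : ∀ m : ℕ, ∀ s ∈ dig Q m, ∃ x ∈ S, (x : ℤ) = base Q D a m + s * (D' - D) := by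
    intro m
    induction m with
    | zero =>
      intro s hs
      simp only [dig, Finset.mem_singleton] at hs
      subst hs
      exact ⟨a, ha, by simp [base]⟩
    | succ m ih =>
      intro s hs
      rw [dig, Finset.mem_union, Finset.mem_image, Finset.mem_image] at hs
      rcases hs with ⟨t, ht, rfl⟩ | ⟨t, ht, rfl⟩
      · obtain ⟨y, hy, hyt⟩ := ih t ht
        obtain ⟨x, hx, hxy⟩ := h1 y hy
        refine ⟨x, hx, ?_⟩
        rw [hxy, hyt, base]; push_cast; ring
      · obtain ⟨y, hy, hyt⟩ := ih t ht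
        obtain ⟨x, hx, hxy⟩ := h2 y hy
        refine ⟨x, hx, ?_⟩
        rw [hxy, hyt, base]; push_cast; ring
  obtain ⟨K, hK⟩ : ∃ K : ℕ, (K : ℤ) = 2 * P * (|(a : ℤ)| + |D|) + P * |D' - D| + 2 * |G| + 1 :=
    ⟨(2 * P * (|(a : ℤ)| + |D|) + P * |D' - D| + 2 * |G| + 1).toNat,
      Int.toNat_of_nonneg (by positivity)⟩
  have hK1 : 1 ≤ K := by
    have : (1 : ℤ) ≤ K := by
      rw [hK]
      have : (0 : ℤ) ≤ 2 * P * (|(a : ℤ)| + |D|) + P * |D' - D| + 2 * |G| := by positivity
      linarith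
    exact_mod_cast this
  have step : ∀ h : ℕ, 2 ≤ h → ∀ m : ℕ, ∃ n : ℕ,
      (2 ^ m - 1 + h / 2).choose (h / 2) ≤ (reps T h n).ncard ∧ 2 ^ m ≤ n + 1 ∧
        n ≤ h * (K * Q ^ (m + 1)) := by
    intro h hh m'
    set m := m' + 1 with hm'
    set X : Finset ℤ := (dig Q m).image
      (fun s : ℕ => (P : ℤ) * (base Q D a m + s * (D' - D)) + G) with hXd
    have hinj : Function.Injective
        (fun s : ℕ => (P : ℤ) * (base Q D a m + s * (D' - D)) + G) := by
      intro s t hst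
      simp only at hst
      have hP0 : (P : ℤ) ≠ 0 := by exact_mod_cast (by omega : P ≠ 0)
      have e1 : (P : ℤ) * (base Q D a m + s * (D' - D)) = P * (base Q D a m + t * (D' - D)) := by
        linarith
      have e2 := mul_left_cancel₀ hP0 e1
      have e3 : (s : ℤ) * (D' - D) = t * (D' - D) := by linarith
      exact_mod_cast mul_right_cancel₀ hδ e3
    have hXc : X.card = 2 ^ m := by
      rw [hXd, Finset.card_image_of_injective _ hinj, card_dig hQ]
    have hpow : 2 ^ m = 2 * 2 ^ m' := by rw [hm', pow_succ]; ring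
    have hpos : 1 ≤ 2 ^ m' := Nat.one_le_two_pow
    obtain ⟨n, hn1, hn2, hn3⟩ := reps_of_symmetric' (A := T) hh (X := X) (u := 2 ^ m' - 1)
      (M := P * (2 * base Q D a m + top Q m * (D' - D)) + 2 * G) (by
        intro x hx
        rw [hXd, Finset.mem_image] at hx
        obtain ⟨s, hs, rfl⟩ := hx
        obtain ⟨y, hy, hys⟩ := pts m s hs
        obtain ⟨x, hx, hxy⟩ := h3 y hy
        exact ⟨x, hx, by rw [hxy, hys]⟩) (by
        intro x hx
        rw [hXd, Finset.mem_image] at hx ⊢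
        obtain ⟨s, hs, rfl⟩ := hx
        obtain ⟨h4, h5⟩ := dig_symm m s hs
        refine ⟨top Q m - s, h5, ?_⟩
        push_cast [h4]
        ring) (by rw [hXc, hpow]; omega)
    refine ⟨n, hn3, by rw [hXc, hpow] at hn1; omega, ?_⟩
    have h4' : P * (2 * base Q D a m + top Q m * (D' - D)) + 2 * G ≤ K * Q ^ m := by
      rw [hK]
      have e1 := base_le hQ D a m
      have e2 : (top Q m : ℤ) ≤ Q ^ m := by exact_mod_cast (top_lt hQ m).le
      have e3 : (1 : ℤ) ≤ (Q : ℤ) ^ m := by exact_mod_cast Nat.one_le_pow m Q (by omega)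
      have e4 := le_abs_self (D' - D)
      have e5 := le_abs_self G
      have e6 : (0 : ℤ) ≤ |D| := abs_nonneg D
      have e7 : (0 : ℤ) ≤ |D' - D| := abs_nonneg _
      have e8 : (0 : ℤ) ≤ |G| := abs_nonneg G
      have e9 : (0 : ℤ) ≤ P := Nat.cast_nonneg P
      have f1 : (P : ℤ) * (2 * base Q D a m) ≤ 2 * P * (|(a : ℤ)| + |D|) * Q ^ m := by
        have := mul_le_mul_of_nonneg_left (by linarith :
          base Q D a m ≤ Q ^ m * (|(a : ℤ)| + |D|)) (by positivity : (0 : ℤ) ≤ 2 * P)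
        calc _ = 2 * (P : ℤ) * base Q D a m := by ring
          _ ≤ _ := this
          _ = _ := by ring
      have f2 : (P : ℤ) * (top Q m * (D' - D)) ≤ P * |D' - D| * Q ^ m := by
        have g1 : (top Q m : ℤ) * (D' - D) ≤ Q ^ m * |D' - D| :=
          (mul_le_mul_of_nonneg_left e4 (Nat.cast_nonneg _)).trans
            (mul_le_mul_of_nonneg_right e2 e7)
        calc _ ≤ (P : ℤ) * (Q ^ m * |D' - D|) := mul_le_mul_of_nonneg_left g1 e9
          _ = _ := by ring
      have f3 : 2 * G ≤ 2 * |G| * Q ^ m := by nlinarith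
      nlinarith
    have h4 : (n : ℤ) ≤ h * (K * Q ^ m) :=
      hn2.trans (mul_le_mul_of_nonneg_left h4' (Nat.cast_nonneg h))
    exact_mod_cast h4
  set c : ℝ := Real.log 2 / (2 * Real.log Q) with hc
  have hc0 : 0 < c := by positivity
  refine ⟨c, hc0, fun h hh N₀ => ?_⟩
  have hKR : (1 : ℝ) ≤ K := by exact_mod_cast hK1
  set r : ℕ := h / 2 with hr
  have hr1 : 1 ≤ r := by omega
  have hrR : (1 : ℝ) ≤ r := by exact_mod_cast hr1
  have hhR : (2 : ℝ) ≤ h := by exact_mod_cast hh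
  -- choose `m`
  have ht : Filter.Tendsto (fun m : ℕ => (m : ℝ) * (r * (Real.log 2 / 2))) Filter.atTop
      Filter.atTop := tendsto_natCast_atTop_atTop.atTop_mul_const (by positivity)
  obtain ⟨m₁, hm₁⟩ := Filter.eventually_atTop.1 (ht.eventually_ge_atTop
    (c * r * Real.log (h * (K * Q)) + Real.log r.factorial))
  set m := max m₁ (N₀ + 1) with hm
  obtain ⟨n, hn1, hn2, hn3⟩ := step h hh m
  have hmN : N₀ + 1 ≤ m := le_max_right _ _
  have h4 : m < 2 ^ m := Nat.lt_two_pow_self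
  refine ⟨n, by omega, ?_⟩
  have hn0 : (0 : ℝ) < n := by
    have : 0 < n := by omega
    exact_mod_cast this
  have h5 : (n : ℝ) ≤ h * (K * Q) * (Q : ℝ) ^ m := by
    have : (n : ℝ) ≤ h * (K * (Q : ℝ) ^ (m + 1)) := by exact_mod_cast hn3
    calc (n : ℝ) ≤ _ := this
      _ = _ := by rw [pow_succ]; ring
  have h6 : Real.log n ≤ Real.log (h * (K * Q)) + m * Real.log Q := by
    have := Real.log_le_log hn0 h5
    rwa [Real.log_mul (by positivity) (by positivity), Real.log_pow] at this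
  have h8 : ((2 : ℝ) ^ m) ^ r ≤ (r.factorial : ℝ) * ((reps T h n).ncard : ℝ) := by
    have e1 := Nat.pow_le_choose (α := ℝ) r (2 ^ m - 1 + r)
    have e2 : 2 ^ m - 1 + r + 1 - r = 2 ^ m := by
      have : 1 ≤ 2 ^ m := Nat.one_le_two_pow
      omega
    rw [e2] at e1
    have e3 : (((2 ^ m - 1 + r).choose r : ℕ) : ℝ) ≤ ((reps T h n).ncard : ℝ) := by
      exact_mod_cast hn1
    have hf : (0 : ℝ) < r.factorial := by exact_mod_cast Nat.factorial_pos r
    rw [div_le_iff₀ hf] at e1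
    calc ((2 : ℝ) ^ m) ^ r = (((2 ^ m : ℕ) : ℝ)) ^ r := by push_cast; rfl
      _ ≤ _ := e1
      _ ≤ _ := mul_le_mul_of_nonneg_right e3 hf.le
      _ = _ := mul_comm _ _
  have h7 : (r.factorial : ℝ) * (n : ℝ) ^ (c * r) ≤ ((2 : ℝ) ^ m) ^ r := by
    have hf : (0 : ℝ) < r.factorial := by exact_mod_cast Nat.factorial_pos r
    rw [← Real.exp_log hf, Real.rpow_def_of_pos hn0, ← pow_mul, ← Real.rpow_natCast,
      Real.rpow_def_of_pos (by norm_num), ← Real.exp_add]
    apply Real.exp_le_exp.2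
    have e1 : Real.log n * (c * r) ≤ (Real.log (h * (K * Q)) + m * Real.log Q) * (c * r) :=
      mul_le_mul_of_nonneg_right h6 (by positivity)
    have e2 : (m : ℝ) * Real.log Q * (c * r) = m * (r * (Real.log 2 / 2)) := by
      rw [hc]; field_simp
    have e3 := hm₁ m (le_max_left _ _)
    push_cast
    nlinarith
  have hf : (0 : ℝ) < r.factorial := by exact_mod_cast Nat.factorial_pos r
  exact le_of_mul_le_mul_left (h7.trans h8) hf

/-- **Dichotomy** for one member of a solution. -/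
theorem dichotomy {ι : Type} [Fintype ι] {E : Finset (ι × ι × ℕ × ℤ)} {F : ι → Finset ℕ}
    {A : ι → Set ℕ} (hE : ∀ i j q d, (i, j, q, d) ∈ E → 2 ≤ q) (hA : IsSolution E F A) (i : ι) :
    (∃ (C : ℝ) (k : ℕ), ∀ N : ℕ, ((A i ∩ Set.Iic N).ncard : ℝ) ≤ C * Real.log (N + 2) ^ k) ∨
    ∀ B : Set ℕ, A i ⊆ B → ∃ c : ℝ, 0 < c ∧ ∀ h : ℕ, 2 ≤ h → ∀ N₀ : ℕ, ∃ n : ℕ, N₀ ≤ n ∧
      (n : ℝ) ^ (c * ((h / 2 : ℕ) : ℝ)) ≤ ((reps B h n).ncard : ℝ) := by
  classical
  set R : ι → Prop := fun j => ∃ Q D, W E Finset.univ i j Q D with hR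
  set V₀ : Finset ι := Finset.univ.filter (fun j => R j ∧ (A j).Nonempty) with hV₀
  by_cases hc : ∀ j ∈ V₀, ∀ Q D D', W E V₀ j j Q D → W E V₀ j j Q D' → D = D'
  · left
    set B : ℕ := E.sup (fun e => e.2.2.2.natAbs) + Finset.univ.sup (fun i => (F i).sup id) with hB
    set qm : ℕ := E.sup (fun e => e.2.2.1) + 1 with hqm
    have hB1 : ∀ i j q d, (i, j, q, d) ∈ E → -(B : ℤ) ≤ d ∧ q ≤ qm := by
      intro i j q d he
      have h1 : d.natAbs ≤ E.sup (fun e => e.2.2.2.natAbs) :=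
        Finset.le_sup (f := fun e : ι × ι × ℕ × ℤ => e.2.2.2.natAbs) he
      have h2 : q ≤ E.sup (fun e => e.2.2.1) :=
        Finset.le_sup (f := fun e : ι × ι × ℕ × ℤ => e.2.2.1) he
      refine ⟨by omega, by omega⟩
    have hB2 : ∀ i, ∀ x ∈ F i, x ≤ B := by
      intro i x hx
      have h1 : x ≤ (F i).sup id := Finset.le_sup (f := id) hx
      have h2 : (F i).sup id ≤ Finset.univ.sup (fun i => (F i).sup id) :=
        Finset.le_sup (f := fun i => (F i).sup id) (Finset.mem_univ i)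
      omega
    have hR1 : ∀ i' j q d, (i', j, q, d) ∈ E → R i' → R j := by
      rintro i' j q d he ⟨Q, D, h⟩
      exact ⟨_, _, h.trans (W.cons he (Finset.mem_univ j) (W.nil j))⟩
    have hV : ∀ j, R j → (A j).Nonempty → j ∈ V₀ := fun j h1 h2 =>
      Finset.mem_filter.2 ⟨Finset.mem_univ j, h1, h2⟩
    -- the counting function
    set g : ℕ := Fintype.card ι with hg
    set s : ℕ := E.card with hs
    have count : ∀ N : ℕ, (A i ∩ Set.Iic N).ncard ≤
        g * (((Nat.log 2 (qm * (N + 1)) + 1) ^ s * (1 + s)) ^ (g + 1)) * (B + 1) := by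
      intro N
      have h1 := card_walks hE V₀ hc (qm * (N + 1)) g V₀ (Finset.Subset.refl _)
        (Finset.card_le_univ _) i
      choose T hT hTm using h1
      have h2 : A i ∩ Set.Iic N ⊆ (((Finset.univ : Finset ι).biUnion
          (fun l => (T l ×ˢ Finset.range (B + 1)).image
            (fun p => ((p.1.1 : ℤ) * p.2 + p.1.2).toNat)) : Finset ℕ) : Set ℕ) := by
        rintro x ⟨hx, hxN⟩
        rw [Set.mem_Iic] at hxN
        obtain ⟨j, Q, D, y, hw, hy, hyB, hxy, h3, h4⟩ := descent hE hA hB1 hB2 hR1 hV x i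
          ⟨1, 0, W.nil i⟩ hx
        have hQ : Q ≤ qm * (N + 1) := by
          by_cases hxB : x ≤ B
          · rw [h3 hxB]
            exact Nat.mul_pos (by omega) (by omega)
          · exact (h4 (by omega)).trans (Nat.mul_le_mul_left _ (by omega))
        rw [Finset.mem_coe, Finset.mem_biUnion]
        refine ⟨j, Finset.mem_univ j, ?_⟩
        rw [Finset.mem_image]
        refine ⟨((Q, D), y), Finset.mem_product.2 ⟨hTm j Q D hw hQ,
          Finset.mem_range.2 (by omega)⟩, ?_⟩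
        simp only
        omega
      have h3 := Set.ncard_le_ncard h2 (Finset.finite_toSet _)
      rw [Set.ncard_coe_finset] at h3
      refine h3.trans (Finset.card_biUnion_le.trans ?_)
      refine (Finset.sum_le_card_nsmul _ _
        (((Nat.log 2 (qm * (N + 1)) + 1) ^ s * (1 + s)) ^ (g + 1) * (B + 1)) ?_).trans ?_
      · intro l _
        refine Finset.card_image_le.trans ?_
        rw [Finset.card_product, Finset.card_range]
        exact Nat.mul_le_mul_right _ (hT l)
      · rw [smul_eq_mul, Finset.card_univ, mul_assoc]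
    have hl2 : (0 : ℝ) < Real.log 2 := Real.log_pos (by norm_num)
    set K : ℝ := (Real.log qm + 2 * Real.log 2) / (Real.log 2 * Real.log 2) + 1 / Real.log 2 with hK
    have hqm1 : (1 : ℝ) ≤ qm := by exact_mod_cast (by omega : 1 ≤ qm)
    have hlq : 0 ≤ Real.log qm := Real.log_nonneg hqm1
    have hK0 : 0 ≤ K := by positivity
    have hlog : ∀ N : ℕ, ((Nat.log 2 (qm * (N + 1)) + 1 : ℕ) : ℝ) ≤ K * Real.log (N + 2) := by
      intro N
      have hN : (0 : ℝ) ≤ N := Nat.cast_nonneg N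
      have h1 : (2 : ℝ) ^ Nat.log 2 (qm * (N + 1)) ≤ qm * (N + 1) := by
        exact_mod_cast Nat.pow_log_le_self 2 (by positivity : qm * (N + 1) ≠ 0)
      have h2 := Real.log_le_log (by positivity) h1
      rw [Real.log_pow, Real.log_mul (by positivity) (by positivity)] at h2
      have h3 : Real.log (N + 1) ≤ Real.log (N + 2) :=
        Real.log_le_log (by positivity) (by linarith)
      have h4 : Real.log 2 ≤ Real.log (N + 2) := Real.log_le_log (by norm_num) (by linarith)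
      have h5 : ((Nat.log 2 (qm * (N + 1)) : ℕ) : ℝ) ≤
          (Real.log qm + Real.log (N + 2)) / Real.log 2 := by
        rw [le_div_iff₀ hl2]
        linarith
      have h6 : Real.log qm + 2 * Real.log 2 ≤
          (Real.log qm + 2 * Real.log 2) / Real.log 2 * Real.log (N + 2) := by
        rw [div_mul_eq_mul_div, le_div_iff₀ hl2]
        exact mul_le_mul_of_nonneg_left h4 (by positivity)
      push_cast
      calc (Nat.log 2 (qm * (N + 1)) : ℝ) + 1
          ≤ (Real.log qm + Real.log (N + 2)) / Real.log 2 + 1 := by linarith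
        _ = (Real.log qm + Real.log 2) / Real.log 2 + 1 / Real.log 2 * Real.log (N + 2) := by
            field_simp
            ring
        _ ≤ (Real.log qm + 2 * Real.log 2) / Real.log 2 / Real.log 2 * Real.log (N + 2) +
            1 / Real.log 2 * Real.log (N + 2) := by
            have h7 : (Real.log qm + Real.log 2) / Real.log 2 ≤
                (Real.log qm + 2 * Real.log 2) / Real.log 2 / Real.log 2 * Real.log (N + 2) := by
              have h8 : (Real.log qm + Real.log 2) / Real.log 2 ≤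
                  (Real.log qm + 2 * Real.log 2) / Real.log 2 := by
                gcongr
                linarith
              have h9 := div_le_div_of_nonneg_right h6 hl2.le
              calc _ ≤ _ := h8
                _ ≤ _ := h9
                _ = _ := by ring
            linarith
        _ = K * Real.log (N + 2) := by rw [hK]; field_simp
    refine ⟨g * ((K ^ s * (1 + s)) ^ (g + 1)) * (B + 1), s * (g + 1), fun N => ?_⟩
    have hN : (0 : ℝ) ≤ N := Nat.cast_nonneg N
    have hL : 0 ≤ Real.log (N + 2) := Real.log_nonneg (by linarith)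
    have h1 : ((A i ∩ Set.Iic N).ncard : ℝ) ≤
        g * ((((Nat.log 2 (qm * (N + 1)) + 1 : ℕ) : ℝ) ^ s * (1 + s)) ^ (g + 1)) * (B + 1) := by
      have := count N
      have h2 : ((A i ∩ Set.Iic N).ncard : ℝ) ≤
        ((g * (((Nat.log 2 (qm * (N + 1)) + 1) ^ s * (1 + s)) ^ (g + 1)) * (B + 1) : ℕ) : ℝ) := by
        exact_mod_cast this
      refine h2.trans (le_of_eq ?_)
      push_cast
      ring
    refine h1.trans ?_
    calc (g : ℝ) * ((((Nat.log 2 (qm * (N + 1)) + 1 : ℕ) : ℝ) ^ s * (1 + s)) ^ (g + 1)) * (B + 1)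
        ≤ g * (((K * Real.log (N + 2)) ^ s * (1 + s)) ^ (g + 1)) * (B + 1) := by
          gcongr
          exact hlog N
      _ = g * ((K ^ s * (1 + s)) ^ (g + 1)) * (B + 1) * Real.log (N + 2) ^ (s * (g + 1)) := by
          have e : ((K * Real.log (N + 2)) ^ s * (1 + s)) ^ (g + 1) =
              (K ^ s * (1 + s)) ^ (g + 1) * Real.log (N + 2) ^ (s * (g + 1)) := by
            rw [mul_pow K, mul_right_comm, mul_pow _ (Real.log (N + 2) ^ s), ← pow_mul]
          rw [e]
          ring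
  · right
    intro B hB
    push Not at hc
    obtain ⟨j, hj, Q, D, D', h1, h2, hne⟩ := hc
    obtain ⟨-, ⟨P, G, hPG⟩, a, ha⟩ := Finset.mem_filter.1 hj
    have hQ : 2 ≤ Q := by
      have h3 := h1.pos hE
      have h4 := h2.pos hE
      by_contra hlt
      have hQ1 : Q = 1 := by omega
      exact hne ((h3.2 hQ1).trans (h4.2 hQ1).symm)
    refine power_growth (G := G) hQ hne (h1.maps hA) (h2.maps hA) ha (hPG.pos hE).1 ?_
    intro y hy
    obtain ⟨x, hx, hxy⟩ := hPG.maps hA y hy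
    exact ⟨x, hB hx, hxy⟩

lemma growth_of_union {ι : Type} [Fintype ι] {E : Finset (ι × ι × ℕ × ℤ)} {F : ι → Finset ℕ}
    {A : ι → Set ℕ} (hE : ∀ i j q d, (i, j, q, d) ∈ E → 2 ≤ q) (hA : IsSolution E F A)
    (I : Set ι) (hN : ∃ ε : ℝ, 0 < ε ∧ ∀ N₀ : ℕ, ∃ N : ℕ, N₀ ≤ N ∧
      (N : ℝ) ^ ε ≤ (((⋃ i ∈ I, A i) ∩ Set.Iic N).ncard : ℝ)) :
    ∃ c : ℝ, 0 < c ∧ ∀ h : ℕ, 2 ≤ h → ∀ N₀ : ℕ, ∃ n : ℕ, N₀ ≤ n ∧
      (n : ℝ) ^ (c * ((h / 2 : ℕ) : ℝ)) ≤ ((reps (⋃ i ∈ I, A i) h n).ncard : ℝ) := by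
  classical
  by_cases h : ∃ i ∈ I, ∀ B : Set ℕ, A i ⊆ B → ∃ c : ℝ, 0 < c ∧ ∀ h : ℕ, 2 ≤ h →
      ∀ N₀ : ℕ, ∃ n : ℕ, N₀ ≤ n ∧ (n : ℝ) ^ (c * ((h / 2 : ℕ) : ℝ)) ≤ ((reps B h n).ncard : ℝ)
  · obtain ⟨i, hi, h⟩ := h
    exact h _ (Set.subset_biUnion_of_mem hi)
  exfalso
  have h1 : ∀ i ∈ I, ∃ (C : ℝ) (k : ℕ), ∀ N : ℕ,
      ((A i ∩ Set.Iic N).ncard : ℝ) ≤ C * Real.log (N + 2) ^ k := by
    intro i hi
    rcases dichotomy hE hA i with h2 | h2
    · exact h2
    · exact absurd ⟨i, hi, h2⟩ h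
  choose! C k hCk using h1
  obtain ⟨ε, hε, hN⟩ := hN
  -- each term is `o(N ^ ε)`
  have h2 : ∀ (c : ℝ) (k : ℕ), Filter.Tendsto
      (fun N : ℕ => c * Real.log (N + 2) ^ k / ((N : ℝ) + 2) ^ ε) Filter.atTop (nhds 0) := by
    intro c k
    have h3 : Filter.Tendsto (fun x : ℝ => Real.log x ^ k / x ^ ε) Filter.atTop (nhds 0) := by
      have := isLittleO_log_rpow_rpow_atTop (k : ℝ) hε
      have h4 := this.tendsto_div_nhds_zero
      refine h4.congr' ?_
      filter_upwards with x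
      rw [Real.rpow_natCast]
    have h5 : Filter.Tendsto (fun N : ℕ => (N : ℝ) + 2) Filter.atTop Filter.atTop :=
      Filter.tendsto_atTop_add_const_right _ _ tendsto_natCast_atTop_atTop
    have h6 := (h3.comp h5).const_mul c
    rw [mul_zero] at h6
    refine h6.congr (fun N => ?_)
    simp only [Function.comp]
    ring
  have h3 : Filter.Tendsto (fun N : ℕ => ∑ i : ι, |C i| * Real.log (N + 2) ^ (k i) /
      ((N : ℝ) + 2) ^ ε) Filter.atTop (nhds 0) := by
    have := tendsto_finsetSum (Finset.univ : Finset ι) (fun i _ => h2 |C i| (k i))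
    simpa using this
  have h4 : (0 : ℝ) < 1 / 3 ^ ε := by positivity
  obtain ⟨N₁, hN₁⟩ := Filter.eventually_atTop.1 (h3.eventually_lt_const h4)
  obtain ⟨N, hNN, hNc⟩ := hN (max N₁ 1)
  have hN1 : (1 : ℝ) ≤ N := by exact_mod_cast (le_trans (le_max_right _ _) hNN)
  have h5 := hN₁ N (le_trans (le_max_left _ _) hNN)
  have h6 : (((⋃ i ∈ I, A i) ∩ Set.Iic N).ncard : ℝ) ≤
      ∑ i : ι, |C i| * Real.log (N + 2) ^ (k i) := by
    have h7 : (⋃ i ∈ I, A i) ∩ Set.Iic N ⊆
        ⋃ i ∈ (Finset.univ.filter (· ∈ I)), (A i ∩ Set.Iic N) := by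
      rintro x ⟨hx, hxN⟩
      rw [Set.mem_iUnion₂] at hx ⊢
      obtain ⟨i, hi, hx⟩ := hx
      exact ⟨i, Finset.mem_filter.2 ⟨Finset.mem_univ i, hi⟩, hx, hxN⟩
    have hfin : ∀ i, (A i ∩ Set.Iic N).Finite := fun i =>
      (Set.finite_Iic N).subset Set.inter_subset_right
    have h8 : ((⋃ i ∈ I, A i) ∩ Set.Iic N).ncard ≤
        ∑ i ∈ Finset.univ.filter (· ∈ I), (A i ∩ Set.Iic N).ncard := by
      refine (Set.ncard_le_ncard h7 ?_).trans (Finset.set_ncard_biUnion_le _ _)
      exact Set.Finite.biUnion (Finset.finite_toSet _) (fun i _ => hfin i)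
    calc (((⋃ i ∈ I, A i) ∩ Set.Iic N).ncard : ℝ)
        ≤ ((∑ i ∈ Finset.univ.filter (· ∈ I), (A i ∩ Set.Iic N).ncard : ℕ) : ℝ) := by
          exact_mod_cast h8
      _ = ∑ i ∈ Finset.univ.filter (· ∈ I), ((A i ∩ Set.Iic N).ncard : ℝ) := by push_cast; rfl
      _ ≤ ∑ i ∈ Finset.univ.filter (· ∈ I), |C i| * Real.log (N + 2) ^ (k i) := by
          refine Finset.sum_le_sum (fun i hi => (hCk i (Finset.mem_filter.1 hi).2 N).trans ?_)
          have : 0 ≤ Real.log ((N : ℝ) + 2) := Real.log_nonneg (by linarith)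
          exact mul_le_mul_of_nonneg_right (le_abs_self _) (by positivity)
      _ ≤ ∑ i : ι, |C i| * Real.log (N + 2) ^ (k i) := by
          refine Finset.sum_le_sum_of_subset_of_nonneg (Finset.filter_subset _ _) ?_
          intro i _ _
          have : 0 ≤ Real.log ((N : ℝ) + 2) := Real.log_nonneg (by linarith)
          positivity
  have h7 : (0 : ℝ) < ((N : ℝ) + 2) ^ ε := by positivity
  rw [← Finset.sum_div, div_lt_iff₀ h7] at h5
  have h8 : ((N : ℝ) + 2) ^ ε ≤ 3 ^ ε * (N : ℝ) ^ ε := by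
    rw [← Real.mul_rpow (by norm_num) (by linarith)]
    exact Real.rpow_le_rpow (by linarith) (by linarith) hε.le
  have h9 : 1 / 3 ^ ε * ((N : ℝ) + 2) ^ ε ≤ (N : ℝ) ^ ε := by
    have h10 : (0 : ℝ) < 3 ^ ε := by positivity
    rw [div_mul_eq_mul_div, one_mul, div_le_iff₀ h10]
    linarith
  linarith

/-- An interval of sums of `h` elements needs many elements. -/
lemma count_pow {A : Set ℕ} {h n₀ N : ℕ} (hb : ∀ n, n₀ ≤ n → n ≤ N → (reps A h n).Nonempty)
    {B : Finset ℕ} (hB : ∀ a ∈ A, a ≤ N → a ∈ B) : N + 1 ≤ n₀ + B.card ^ h := by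
  classical
  have h1 : ∀ n, ∃ f : Fin h → ℕ, n₀ ≤ n → n ≤ N → (∀ i, f i ∈ A) ∧ (∀ i, f i ≤ n) ∧
      (Multiset.ofList (List.ofFn f)).sum = n := by
    intro n
    by_cases hn : n₀ ≤ n ∧ n ≤ N
    · obtain ⟨s, hs⟩ := hb n hn.1 hn.2
      obtain ⟨f, hf1, hf2, hf3⟩ := reps_exists_fun hs
      exact ⟨f, fun _ _ => ⟨hf1, hf2, by rw [hf3]; exact hs.2.2⟩⟩
    · exact ⟨fun _ => 0, fun h1 h2 => absurd ⟨h1, h2⟩ hn⟩
  choose p hp using h1
  have h3 : ((Finset.Icc n₀ N).image p : Finset (Fin h → ℕ)) ⊆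
      Fintype.piFinset (fun _ : Fin h => B) := by
    intro q hq
    obtain ⟨n, hn, rfl⟩ := Finset.mem_image.1 hq
    rw [Finset.mem_Icc] at hn
    obtain ⟨h4, h5, h6⟩ := hp n hn.1 hn.2
    rw [Fintype.mem_piFinset]
    intro i
    exact hB _ (h4 i) ((h5 i).trans hn.2)
  have h4 := Finset.card_le_card h3
  rw [Fintype.card_piFinset, Finset.prod_const, Finset.card_image_of_injOn, Nat.card_Icc,
    Finset.card_univ, Fintype.card_fin] at h4
  · omega
  · intro n hn m hm hnm
    rw [Finset.coe_Icc, Set.mem_Icc] at hn hm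
    have h5 := (hp n hn.1 hn.2).2.2
    have h6 := (hp m hm.1 hm.2).2.2
    rw [← h5, ← h6, hnm]

/-- an asymptotic basis has many elements -/
lemma growth_of_basis {B : Set ℕ} {h : ℕ} (hh : 1 ≤ h)
    (hb : ∃ n₀ : ℕ, ∀ n, n₀ ≤ n → (reps B h n).Nonempty) :
    ∃ ε : ℝ, 0 < ε ∧ ∀ N₀ : ℕ, ∃ N : ℕ, N₀ ≤ N ∧ (N : ℝ) ^ ε ≤ ((B ∩ Set.Iic N).ncard : ℝ) := by
  classical
  obtain ⟨n₀, hn₀⟩ := hb
  have hhR : (0 : ℝ) < h := by exact_mod_cast hh
  refine ⟨1 / (2 * h), by positivity, fun N₀ => ⟨max N₀ (2 * n₀ + 4), le_max_left _ _, ?_⟩⟩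
  set N := max N₀ (2 * n₀ + 4) with hN
  have hN1 : 2 * n₀ + 4 ≤ N := le_max_right _ _
  have hfin : (B ∩ Set.Iic N).Finite := (Set.finite_Iic N).subset Set.inter_subset_right
  have h1 := count_pow (n₀ := n₀) (N := N) (fun n hn _ => hn₀ n hn) (B := hfin.toFinset)
    (fun a ha haN => by rw [Set.Finite.mem_toFinset]; exact ⟨ha, haN⟩)
  rw [← Set.ncard_eq_toFinset_card _ hfin] at h1
  set m := (B ∩ Set.Iic N).ncard with hm
  have h3 : N ≤ 2 * m ^ h := by omega
  have h4 : 2 ≤ m ^ h := by omega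
  have h5 : N ≤ (m ^ h) ^ 2 := by nlinarith
  have h6 : (N : ℝ) ≤ (m : ℝ) ^ (2 * (h : ℝ)) := by
    have e : (m : ℝ) ^ (2 * (h : ℝ)) = (((m ^ h) ^ 2 : ℕ) : ℝ) := by
      push_cast
      rw [← pow_mul, ← Real.rpow_natCast]
      congr 1
      push_cast
      ring
    rw [e]
    exact_mod_cast h5
  calc (N : ℝ) ^ (1 / (2 * (h : ℝ))) ≤ ((m : ℝ) ^ (2 * (h : ℝ))) ^ (1 / (2 * (h : ℝ))) :=
        Real.rpow_le_rpow (Nat.cast_nonneg _) h6 (by positivity)
    _ = m := by
        rw [← Real.rpow_mul (Nat.cast_nonneg _), mul_one_div_cancel (by positivity),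
          Real.rpow_one]

/-- **The Erdős–Turán conjecture of order `h` for bases given by affine systems with different
multipliers.** -/
theorem result {ι : Type} [Fintype ι] (E : Finset (ι × ι × ℕ × ℤ)) (F : ι → Finset ℕ)
    (A : ι → Set ℕ) (hE : ∀ i j q d, (i, j, q, d) ∈ E → 2 ≤ q) (hA : IsSolution E F A) :
    (∀ i : ι,
      (∃ (C : ℝ) (k : ℕ), ∀ N : ℕ, ((A i ∩ Set.Iic N).ncard : ℝ) ≤ C * Real.log (N + 2) ^ k) ∨
      ∀ B : Set ℕ, A i ⊆ B → ∃ c : ℝ, 0 < c ∧ ∀ h : ℕ, 2 ≤ h → ∀ N₀ : ℕ, ∃ n : ℕ, N₀ ≤ n ∧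
        (n : ℝ) ^ (c * ((h / 2 : ℕ) : ℝ)) ≤ ((reps B h n).ncard : ℝ)) ∧
    (∀ I : Set ι,
      ((∃ ε : ℝ, 0 < ε ∧ ∀ N₀ : ℕ, ∃ N : ℕ, N₀ ≤ N ∧
          (N : ℝ) ^ ε ≤ (((⋃ i ∈ I, A i) ∩ Set.Iic N).ncard : ℝ)) ∨
        (∃ h : ℕ, 1 ≤ h ∧ ∃ n₀ : ℕ, ∀ n, n₀ ≤ n → (reps (⋃ i ∈ I, A i) h n).Nonempty)) →
      ∃ c : ℝ, 0 < c ∧ ∀ h : ℕ, 2 ≤ h → ∀ N₀ : ℕ, ∃ n : ℕ, N₀ ≤ n ∧
        (n : ℝ) ^ (c * ((h / 2 : ℕ) : ℝ)) ≤ ((reps (⋃ i ∈ I, A i) h n).ncard : ℝ)) := by
  refine ⟨fun i => dichotomy hE hA i, fun I h => growth_of_union hE hA I ?_⟩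
  rcases h with h | ⟨h, hh, hb⟩
  · exact h
  · exact growth_of_basis hh hb

end Pool.Agent.Y585.AffineSystemsOrderH
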